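import Pool.Agent.Helper79.GS.St5

/-!
# Project GS, module TG3: calls of the kind 3 (`Xk`)
-/

set_option autoImplicit false

namespace Pool.Agent.Helper54.GS

open Pool.Agent.Helper79.GS Pool.Agent.Helper19.SK Pool.Agent.Helper73.DC Finset
open scoped Classical

private theorem b01_ne (p : Prop) : b01 p ≠ 0 ↔ p := by
  unfold b01
  by_cases h : p
  · simp [h]
  · simp [h]

private theorem b01_zero (p : Prop) : b01 p = 0 ↔ ¬ p := by
  unfold b01
  by_cases h : p
  · simp [h]
  · simp [h]

private theorem b01_one (p : Prop) : b01 p = 1 ↔ p := by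
  unfold b01
  by_cases h : p
  · simp [h]
  · simp [h]

private theorem b01_le (p : Prop) : b01 p ≤ 1 := by
  unfold b01
  by_cases h : p
  · simp [h]
  · simp [h]

private theorem b01_congr {p q : Prop} (h : p ↔ q) : b01 p = b01 q := by rw [propext h]

private theorem mat_bound {E : ℕ → ℕ → Prop} {B m : ℕ} (hE : ∀ y x, E y x → y < B) (h : Mat E m) :
    m ≤ B := by
  obtain ⟨M, hM, h1, h2, h3⟩ := h
  have h4 : (M.image Prod.fst) ⊆ Finset.range B := by
    intro y hy
    obtain ⟨e, he, rfl⟩ := Finset.mem_image.1 hy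
    exact Finset.mem_range.2 (hE _ _ (h1 e he))
  have h5 := Finset.card_le_card h4
  rw [Finset.card_image_of_injOn h2, Finset.card_range, hM] at h5
  exact h5

private theorem stp3_le (j a y : ℕ) : stp3 j a y ≤ 2 := by
  unfold stp3
  have h1 := b01_le (y ≠ 0)
  have h2 := b01_le (a = 2 ∧ y = 0)
  split_ifs <;> omega

/-- the loop -/
private theorem loop (E : Prop) (P Q : ℕ → Prop) (Y : ℕ → ℕ) (h0 : Y 0 = b01 E)
    (h1 : ∀ m, Y (1 + 2 * m) = b01 (P m)) (h2 : ∀ m, Y (2 + 2 * m) = b01 (Q m)) (m : ℕ) :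
    (Nat.rec 0 (fun j a => stp3 j a (Y j)) (1 + 2 * m) : ℕ) = b01 (E ∨ ∃ m' < m, P m' ∧ ¬ Q m') ∧
    (Nat.rec 0 (fun j a => stp3 j a (Y j)) (2 + 2 * m) : ℕ) =
      if (E ∨ ∃ m' < m, P m' ∧ ¬ Q m') then 1 else if P m then 2 else 0 := by
  have hB : ∀ m : ℕ, (Nat.rec 0 (fun j a => stp3 j a (Y j)) (1 + 2 * m) : ℕ) =
      b01 (E ∨ ∃ m' < m, P m' ∧ ¬ Q m') →
      (Nat.rec 0 (fun j a => stp3 j a (Y j)) (2 + 2 * m) : ℕ) =
      if (E ∨ ∃ m' < m, P m' ∧ ¬ Q m') then 1 else if P m then 2 else 0 := by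
    intro m hA
    have e1 : 2 + 2 * m = (1 + 2 * m) + 1 := by ring
    rw [e1]
    change stp3 (1 + 2 * m) (Nat.rec 0 (fun j a => stp3 j a (Y j)) (1 + 2 * m) : ℕ) (Y (1 + 2 * m)) = _
    rw [hA, h1 m]
    unfold stp3
    rw [if_neg (by omega : ¬ 1 + 2 * m = 0), if_pos (by omega : (1 + 2 * m - 1) % 2 = 0)]
    by_cases hE : (E ∨ ∃ m' < m, P m' ∧ ¬ Q m')
    · rw [if_pos ((b01_one _).2 hE), if_pos hE]
    · rw [if_neg (fun h => hE ((b01_one _).1 h)), if_neg hE]
      by_cases hP : P m
      · rw [if_pos ((b01_ne _).2 hP), if_pos hP]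
      · rw [if_neg (fun h => hP ((b01_ne _).1 h)), if_neg hP]
  have hA : ∀ m : ℕ, (Nat.rec 0 (fun j a => stp3 j a (Y j)) (1 + 2 * m) : ℕ) =
      b01 (E ∨ ∃ m' < m, P m' ∧ ¬ Q m') := by
    intro m
    induction m with
    | zero =>
      change stp3 0 0 (Y 0) = _
      rw [h0]
      unfold stp3
      rw [if_pos rfl]
      apply b01_congr
      rw [b01_ne]
      simp
    | succ m ih =>
      have hb := hB m ih
      have e1 : 1 + 2 * (m + 1) = (2 + 2 * m) + 1 := by ring
      rw [e1]
      change stp3 (2 + 2 * m) (Nat.rec 0 (fun j a => stp3 j a (Y j)) (2 + 2 * m) : ℕ) (Y (2 + 2 * m)) = _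
      rw [hb, h2 m]
      unfold stp3
      rw [if_neg (by omega : ¬ 2 + 2 * m = 0), if_neg (by omega : ¬ (2 + 2 * m - 1) % 2 = 0)]
      by_cases hE : (E ∨ ∃ m' < m, P m' ∧ ¬ Q m')
      · rw [if_pos hE, if_pos rfl]
        symm
        rw [b01_one]
        rcases hE with h | ⟨m', h3, h4⟩
        · exact Or.inl h
        · exact Or.inr ⟨m', by omega, h4⟩
      · rw [if_neg hE]
        by_cases hP : P m
        · rw [if_pos hP, if_neg (by norm_num)]
          apply b01_congr
          rw [b01_zero]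
          constructor
          · rintro ⟨-, h⟩
            exact Or.inr ⟨m, by omega, hP, h⟩
          · rintro (h | ⟨m', h3, h4⟩)
            · exact absurd (Or.inl h) hE
            · refine ⟨rfl, ?_⟩
              by_cases h5 : m' = m
              · rw [h5] at h4
                exact h4.2
              · exact absurd (Or.inr ⟨m', by omega, h4⟩) hE
        · rw [if_neg hP, if_neg (by norm_num)]
          apply b01_congr
          constructor
          · rintro ⟨h, -⟩
            exact absurd h (by norm_num)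
          · rintro (h | ⟨m', h3, h4⟩)
            · exact absurd (Or.inl h) hE
            · by_cases h5 : m' = m
              · rw [h5] at h4
                exact absurd h4.1 hP
              · exact absurd (Or.inr ⟨m', by omega, h4⟩) hE
  exact ⟨hA m, hB m (hA m)⟩

theorem hTG3 (hBND : StBND) (hFLD : StFLD) (hARN : StARN) : StTG3 := by
  intro w r c a b u k m fl d s t x hok
  obtain ⟨-, -, -, hFL⟩ := hFLD w
  obtain ⟨⟨f0, f1, f2, f3, f4, f5, f6, f7, f8, f9, f10, f11, f12⟩, hzN, hV, hR, hO⟩ :=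
    hFL 3 r c a b u k m fl d s t x hok
  obtain ⟨-, -, -, hPh, hNb, -, -, -, -, -, hNbPh, -, -, -, -, -, -, h16, -⟩ := hBND w
  obtain ⟨-, -, ok1, ok2, ok3, ok4, ok5, ok6, -, ok8, ok9, ok10, ok11, ok12, ok13, -⟩ := hok
  have hIni : IniN (NN 16 w) w (zz (NN 16 w) w 3 r c a b u k m fl d s t x) = 0 := by
    unfold IniN
    rw [f0, if_neg (by norm_num)]
  have hLen : LenN (NN 16 w) w (zz (NN 16 w) w 3 r c a b u k m fl d s t x) =
      if k = 0 then 0 else 2 * (3 ^ (nW w * nW w) + 1) + 1 := by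
    unfold LenN
    rw [f0, f6, if_neg (by norm_num), if_neg (by norm_num), if_pos rfl, hNb]
  have hDel : ∀ j, DelN (NN 16 w) w (zz (NN 16 w) w 3 r c a b u k m fl d s t x) j =
      del3 (NN 16 w) w r c a b u k j := by
    intro j
    unfold DelN
    rw [f0, f1, f2, f3, f4, f5, f6, if_neg (by norm_num), if_neg (by norm_num), if_pos rfl]
  have hStp : ∀ j a' y, StpN (NN 16 w) w (zz (NN 16 w) w 3 r c a b u k m fl d s t x) j a' y =
      stp3 j a' y := by
    intro j a' y
    unfold StpN
    rw [f0, if_neg (by norm_num), if_neg (by norm_num), if_pos rfl]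
  have hOut : ∀ a', OutN (NN 16 w) w (zz (NN 16 w) w 3 r c a b u k m fl d s t x) a' = b01 (a' = 1) := by
    intro a'
    unfold OutN
    rw [f0, if_pos rfl]
  -- sizes
  have hN2 : PhN (NN 16 w) w * PhN (NN 16 w) w ≤ NN 16 w := by
    refine le_trans ?_ hPh
    have : PhN (NN 16 w) w * PhN (NN 16 w) w = PhN (NN 16 w) w ^ 2 := by ring
    rw [this]
    exact Nat.pow_le_pow_right (by omega) (by norm_num)
  have hN3 : 16 * PhN (NN 16 w) w ≤ NN 16 w := le_trans (Nat.mul_le_mul_right _ h16) hN2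
  have hB0 : 0 < 3 ^ (nW w * nW w) := by positivity
  -- the calls
  have ok0 : OkF w 2 r c 0 0 u 0 0 0 0 0 0 0 := by
    refine ⟨by norm_num, by norm_num, ok1, ok2, hB0, hB0, ok5, by omega, fun _ => by omega,
      by omega, by omega, by omega, by omega, by omega, by omega, fun h => ?_⟩
    exact absurd h (by norm_num)
  obtain ⟨-, -, hV0, hR0, hO0⟩ := hFL 2 r c 0 0 u 0 0 0 0 0 0 0 ok0
  have ok4' : k ≠ 0 → ∀ m' ≤ 3 ^ (nW w * nW w), ∀ fl' ≤ 1, OkF w 4 r c a b u (k - 1) m' fl' 0 0 0 0 := by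
    intro hk m' hm' fl' hfl'
    refine ⟨by norm_num, by norm_num, ok1, ok2, ok3, ok4, ok5, by omega, fun _ => by omega,
      hm', hfl', by omega, by omega, by omega, by omega, fun h => ?_⟩
    exact absurd h (by norm_num)
  refine ⟨?_, ?_, ?_, ?_, ?_⟩
  · rw [hIni]
    omega
  · rw [hLen]
    split_ifs <;> omega
  · intro j hj
    rw [hLen] at hj
    have hk : k ≠ 0 := by
      rintro rfl
      simp at hj
    rw [if_neg hk] at hj
    rw [hDel]
    refine ⟨?_, ?_, ?_⟩
    · unfold del3
      split_ifs with h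
      · exact hO0
      · exact (hFL 4 r c a b u (k - 1) ((j - 1) / 2) ((j - 1) % 2) 0 0 0 0
          (ok4' hk _ (by omega) _ (by omega))).2.2.2.2
    · rw [hR]
      unfold del3
      split_ifs with h
      · rw [hR0]
        unfold rkF
        norm_num
        omega
      · rw [(hFL 4 r c a b u (k - 1) ((j - 1) / 2) ((j - 1) % 2) 0 0 0 0
          (ok4' hk _ (by omega) _ (by omega))).2.2.2.1]
        obtain ⟨k', rfl⟩ := Nat.exists_eq_succ_of_ne_zero hk
        unfold rkF
        simp only [Nat.succ_sub_one, Nat.succ_eq_add_one]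
        norm_num
        ring_nf
        omega
    · intro a' _ y _
      rw [hStp]
      have := stp3_le j a' y
      omega
  · intro a' _
    rw [hOut]
    have := b01_le (a' = 1)
    omega
  · rw [hV, hOut, hIni, hLen]
    have hrec : (Nat.rec 0 (fun j a' => StpN (NN 16 w) w (zz (NN 16 w) w 3 r c a b u k m fl d s t x) j a'
        (ValW w (DelN (NN 16 w) w (zz (NN 16 w) w 3 r c a b u k m fl d s t x) j)))
        (if k = 0 then 0 else 2 * (3 ^ (nW w * nW w) + 1) + 1) : ℕ) =
        Nat.rec 0 (fun j a' => stp3 j a' (ValW w (del3 (NN 16 w) w r c a b u k j)))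
          (if k = 0 then 0 else 2 * (3 ^ (nW w * nW w) + 1) + 1) := by
      simp only [hStp, hDel]
    rw [hrec]
    have hv3 : ValF w 3 r c a b u k m fl d s t x =
        b01 (Xk (AW w) (EN (AW w) (HW w) r) (VW w a b) (cB c) k u) := by
      unfold ValF
      rw [if_neg (by norm_num), if_neg (by norm_num), if_pos rfl]
    rw [hv3]
    rcases Nat.eq_zero_or_pos k with rfl | hkpos
    · rw [if_pos rfl]
      apply b01_congr
      simp [Xk]
    have hk : k ≠ 0 := by omega
    rw [if_neg hk]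
    obtain ⟨k', rfl⟩ := Nat.exists_eq_succ_of_ne_zero hk
    -- the graph
    have hG0 : GW w r c a b u k' 0 =
        Gr (AW w) (EN (AW w) (HW w) r) (VW w a b) (cB c)
          (Xk (AW w) (EN (AW w) (HW w) r) (VW w a b) (cB c) k') u := by
      unfold GW
      rw [if_neg (by norm_num)]
    have hG1 : GW w r c a b u k' 1 = del (GW w r c a b u k' 0) u := by
      rw [hG0]
      unfold GW
      rw [if_pos rfl]
    have hsupp : ∀ y x', GW w r c a b u k' 0 y x' → y < 3 ^ (nW w * nW w) := by
      intro y x' h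
      rw [hG0] at h
      obtain ⟨-, -, h1, -⟩ := h
      obtain ⟨-, h2, -, -, -, -, -, h3, -⟩ := hARN w c y x' ok2
      exact (h3 (h2.1 h1.1)).1
    -- the values
    have hY0 : ValW w (del3 (NN 16 w) w r c a b u (Nat.succ k') 0) =
        b01 (EN (AW w) (HW w) r (cB c) u) := by
      unfold del3
      rw [if_pos rfl, hV0]
      unfold ValF
      rw [if_neg (by norm_num), if_pos rfl]
    have hY4 : ∀ m' ≤ 3 ^ (nW w * nW w), ∀ fl' ≤ 1,
        ValW w (zz (NN 16 w) w 4 r c a b u k' m' fl' 0 0 0 0) = b01 (Mat (GW w r c a b u k' fl') m') := by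
      intro m' hm' fl' hfl'
      have h1 := (hFL 4 r c a b u k' m' fl' 0 0 0 0 (ok4' hk m' hm' fl' hfl')).2.2.1
      rw [h1]
      unfold ValF
      rw [if_neg (by norm_num), if_neg (by norm_num), if_neg (by norm_num), if_pos rfl]
    -- the loop, with modified values beyond the end
    obtain ⟨Y, hYa, hYb, hYc⟩ : ∃ Y : ℕ → ℕ, (∀ j < 2 * (3 ^ (nW w * nW w) + 1) + 1,
        Y j = ValW w (del3 (NN 16 w) w r c a b u (Nat.succ k') j)) ∧
        (∀ m', ¬ 1 + 2 * m' < 2 * (3 ^ (nW w * nW w) + 1) + 1 →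
          Y (1 + 2 * m') = b01 (Mat (GW w r c a b u k' 0) m')) ∧
        (∀ m', ¬ 2 + 2 * m' < 2 * (3 ^ (nW w * nW w) + 1) + 1 →
          Y (2 + 2 * m') = b01 (Mat (GW w r c a b u k' 1) m')) := by
      refine ⟨fun j => if j < 2 * (3 ^ (nW w * nW w) + 1) + 1 then
        ValW w (del3 (NN 16 w) w r c a b u (Nat.succ k') j) else
        if j % 2 = 1 then b01 (Mat (GW w r c a b u k' 0) ((j - 1) / 2)) else
          b01 (Mat (GW w r c a b u k' 1) ((j - 2) / 2)), fun j hj => if_pos hj, fun m' h => ?_,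
          fun m' h => ?_⟩
      · change (if _ then _ else _) = _
        rw [if_neg h, if_pos (by omega)]
        have e1 : (1 + 2 * m' - 1) / 2 = m' := by omega
        rw [e1]
      · change (if _ then _ else _) = _
        rw [if_neg h, if_neg (by omega)]
        have e1 : (2 + 2 * m' - 2) / 2 = m' := by omega
        rw [e1]
    have key := (loop (EN (AW w) (HW w) r (cB c) u) (fun m' => Mat (GW w r c a b u k' 0) m')
      (fun m' => Mat (GW w r c a b u k' 1) m') Y
      (by
        rw [hYa 0 (by omega)]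
        exact hY0)
      (by
        intro m'
        by_cases h : 1 + 2 * m' < 2 * (3 ^ (nW w * nW w) + 1) + 1
        · rw [hYa _ h]
          unfold del3
          rw [if_neg (by omega)]
          have e1 : (1 + 2 * m' - 1) / 2 = m' := by omega
          have e2 : (1 + 2 * m' - 1) % 2 = 0 := by omega
          rw [e1, e2]
          exact hY4 m' (by omega) 0 (by omega)
        · exact hYb m' h)
      (by
        intro m'
        by_cases h : 2 + 2 * m' < 2 * (3 ^ (nW w * nW w) + 1) + 1
        · rw [hYa _ h]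
          unfold del3
          rw [if_neg (by omega)]
          have e1 : (2 + 2 * m' - 1) / 2 = m' := by omega
          have e2 : (2 + 2 * m' - 1) % 2 = 1 := by omega
          rw [e1, e2]
          exact hY4 m' (by omega) 1 (by omega)
        · exact hYc m' h)
      (3 ^ (nW w * nW w) + 1)).1
    have hcong : ∀ (f g : ℕ → ℕ) (K : ℕ), (∀ j < K, f j = g j) →
        (Nat.rec 0 (fun j a' => stp3 j a' (f j)) K : ℕ) = Nat.rec 0 (fun j a' => stp3 j a' (g j)) K := by
      intro f g K
      induction K with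
      | zero => intro _; rfl
      | succ K ih =>
        intro h
        change stp3 K (Nat.rec 0 (fun j a' => stp3 j a' (f j)) K : ℕ) (f K) =
          stp3 K (Nat.rec 0 (fun j a' => stp3 j a' (g j)) K : ℕ) (g K)
        rw [ih (fun j hj => h j (by omega)), h K (by omega)]
    have hfin : (Nat.rec 0 (fun j a' => stp3 j a' (ValW w (del3 (NN 16 w) w r c a b u (Nat.succ k') j)))
        (2 * (3 ^ (nW w * nW w) + 1) + 1) : ℕ) =
        b01 (EN (AW w) (HW w) r (cB c) u ∨ ∃ m' < 3 ^ (nW w * nW w) + 1,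
          Mat (GW w r c a b u k' 0) m' ∧ ¬ Mat (GW w r c a b u k' 1) m') := by
      rw [← key, add_comm 1]
      exact hcong (fun j => ValW w (del3 (NN 16 w) w r c a b u (Nat.succ k') j)) Y
        (2 * (3 ^ (nW w * nW w) + 1) + 1) (fun j hj => (hYa j hj).symm)
    rw [hfin]
    apply b01_congr
    rw [b01_one]
    change (EN (AW w) (HW w) r (cB c) u ∨ Ess (Gr (AW w) (EN (AW w) (HW w) r) (VW w a b) (cB c)
          (Xk (AW w) (EN (AW w) (HW w) r) (VW w a b) (cB c) k') u) u) ↔ _
    rw [← hG0, hG1]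
    constructor
    · rintro (h | ⟨m', h1, h2⟩)
      · exact Or.inl h
      · refine Or.inr ⟨m', ?_, h1, h2⟩
        have := mat_bound hsupp h1
        omega
    · rintro (h | ⟨m', -, h1, h2⟩)
      · exact Or.inl h
      · exact Or.inr ⟨m', h1, h2⟩

end Pool.Agent.Helper54.GS
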